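import Pool.Agent.H.MP_279ba3_co.C

namespace Pool.Agent.Results.MP_279ba3_co.Subgraph

open Set Cardinal Pool.Agent.H.MP_279ba3_co

universe u

/-- the colouring number: least cardinal c such that in some well-ordering of the vertices every
vertex has fewer than c smaller neighbours -/
noncomputable def col {V : Type u} (G : SimpleGraph V) : Cardinal.{u} :=
  sInf {c | ∃ r : V → V → Prop, IsWellOrder V r ∧ ∀ x, #{y | G.Adj x y ∧ r y x} < c}

lemma col_spec {V : Type u} (G : SimpleGraph V) :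
    ∃ r : V → V → Prop, IsWellOrder V r ∧ ∀ x, #{y | G.Adj x y ∧ r y x} < col G := by
  have : {c | ∃ r : V → V → Prop, IsWellOrder V r ∧
      ∀ x, #{y | G.Adj x y ∧ r y x} < c}.Nonempty :=
    ⟨Order.succ #V, WellOrderingRel, inferInstance,
      fun x => (mk_set_le _).trans_lt (Order.lt_succ _)⟩
  exact csInf_mem this

lemma col_le_iff {V : Type u} (G : SimpleGraph V) (k : ℕ) :
    col G ≤ (k + 1 : ℕ) ↔ Ordb G k ∅ Set.univ := by
  constructor
  · intro h
    obtain ⟨r, hr, h1⟩ := col_spec G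
    refine ⟨fun x => {y | G.Adj x y ∧ r y x}, fun x => ?_, by simp, ?_, ?_⟩
    · have h2 := (h1 x).trans_le h
      rw [Nat.cast_add_one, ← Cardinal.succ_natCast, Order.lt_succ_iff] at h2
      rw [Set.encard, ENat.card]
      simpa using toENat.monotone' h2
    · intro v _ w _ ha
      rcases trichotomous_of r w v with h | h | h
      · exact Or.inl ⟨ha, h⟩
      · exact absurd h.symm ha.ne
      · exact Or.inr ⟨ha.symm, h⟩
    · exact Subrelation.wf (fun {_ _} hh => hh.2.2.2) hr.wf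
  · rintro ⟨P, hP⟩
    haveI : IsWellFounded V (fun w v => w ∈ Set.univ ∧ v ∈ Set.univ ∧ w ∈ P v) := ⟨hP.wf⟩
    obtain ⟨s, hs, hw⟩ := IsWellFounded.exists_well_order_ge
      (fun w v => w ∈ Set.univ ∧ v ∈ Set.univ ∧ w ∈ P v)
    refine csInf_le' ⟨s, hw, fun x => ?_⟩
    have : {y | G.Adj x y ∧ s y x} ⊆ P x := by
      rintro y ⟨a, b⟩
      rcases hP.ins x trivial y trivial a with h | h
      · exact h
      · exact absurd (hs x y ⟨trivial, trivial, h⟩) (asymm_of s b)
    refine (mk_le_mk_of_subset this).trans_lt ?_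
    have h2 := hP.card x
    rw [Set.encard, ENat.card, toENat_le_natCast] at h2
    exact h2.trans_lt (by exact_mod_cast Nat.lt_succ_self k)

lemma ord_comap {V W : Type u} {G : SimpleGraph V} {H : SimpleGraph W} {k : ℕ} (f : W → V)
    (hf : Function.Injective f) (h : ∀ a b, H.Adj a b → G.Adj (f a) (f b))
    (ho : Ordb G k ∅ Set.univ) : Ordb H k ∅ Set.univ := by
  obtain ⟨P, hP⟩ := ho
  refine ⟨fun a => f ⁻¹' P (f a), fun a => ?_, by simp, ?_, ?_⟩
  · refine le_trans ?_ (hP.card (f a))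
    rw [← hf.encard_image]
    exact encard_le_encard (image_preimage_subset _ _)
  · intro a _ b _ ha
    exact hP.ins _ trivial _ trivial (h a b ha)
  · exact Subrelation.wf (fun {_ _} hh => ⟨trivial, trivial, hh.2.2⟩) (InvImage.wf f hP.wf)

lemma ord_coe {V : Type u} {G G' : SimpleGraph V} (h : G' ≤ G) (k : ℕ) :
    Ordb (G.toSubgraph G' h).coe k ∅ Set.univ ↔ Ordb G' k ∅ Set.univ :=
  ⟨ord_comap (fun v => ⟨v, trivial⟩) (fun _ _ h => congrArg Subtype.val h) (fun _ _ h => h),
    ord_comap Subtype.val Subtype.val_injective (fun _ _ h => h)⟩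

theorem result {V : Type u} (G : SimpleGraph V) (n : ℕ) (h : (n : Cardinal.{u}) ≤ col G) :
    ∃ G' : G.Subgraph, col G'.coe = n := by
  rcases n with _ | _ | k
  · refine ⟨⊥, le_antisymm (csInf_le' ⟨WellOrderingRel, inferInstance, fun x => ?_⟩) (by simp)⟩
    exact x.2.elim
  · refine ⟨G.toSubgraph ⊥ bot_le, le_antisymm ((col_le_iff _ 0).2 ((ord_coe _ 0).2
      ⟨_, wit_bot _ _ _⟩)) ?_⟩
    have hne : Nonempty V := by
      by_contra hh
      have : col G ≤ 0 := csInf_le' ⟨WellOrderingRel, inferInstance, fun x => absurd ⟨x⟩ hh⟩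
      have := h.trans this
      simp at this
    obtain ⟨r, -, h1⟩ := col_spec (G.toSubgraph ⊥ bot_le).coe
    have := zero_le.trans_lt (h1 ⟨hne.some, trivial⟩)
    simpa using Cardinal.one_le_iff_ne_zero.2 this.ne'
  · have h1 : ¬ Ordb G k ∅ Set.univ := by
      rw [← col_le_iff, not_le]
      exact lt_of_lt_of_le (by exact_mod_cast Nat.lt_succ_self _) h
    have h2 : ¬ Rigid G k ∅ Set.univ := fun hr => h1 (main k _ G _ _ rfl (by simp) hr)
    simp only [Rigid, not_forall] at h2
    obtain ⟨G', g1, g2, g3⟩ := h2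
    refine ⟨G.toSubgraph G' g1, le_antisymm ((col_le_iff _ (k + 1)).2 ((ord_coe _ _).2 g2)) ?_⟩
    rw [← ord_coe g1, ← col_le_iff, not_le] at g3
    rw [Nat.cast_add_one (k + 1), ← Cardinal.succ_natCast]
    exact Order.succ_le_of_lt g3

end Pool.Agent.Results.MP_279ba3_co.Subgraph
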